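import Mathlib

set_option autoImplicit false

open scoped Manifold ContDiff Topology
open Set Metric Filter

namespace Pool.Agent.V1171.CN

/-- The spherical cap `{z ∈ ℂⁿ : ‖z‖ = 1, Re z₁ ≥ r}`. -/
def cap (n : ℕ) [NeZero n] (r : ℝ) : Set (EuclideanSpace ℂ (Fin n)) :=
  {z | ‖z‖ = 1 ∧ r ≤ (z 0).re}

/-- The filled spherical hat `{z ∈ ℂⁿ : ‖z‖ ≤ 1, Re z₁ ≥ r}`. -/
def hat (n : ℕ) [NeZero n] (r : ℝ) : Set (EuclideanSpace ℂ (Fin n)) :=
  {z | ‖z‖ ≤ 1 ∧ r ≤ (z 0).re}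

variable {E : Type*} [NormedAddCommGroup E] [NormedSpace ℂ E] {H : Type*} [TopologicalSpace H]
  (I : ModelWithCorners ℂ E H) {M : Type*} [TopologicalSpace M] [ChartedSpace H M]

/-- `K''` arises from `K'` by a spherical cut (in an `n`-dimensional complex manifold). -/
def IsCut (n : ℕ) [NeZero n] (K' K'' : Set M) : Prop :=
  ∃ r ∈ Ioo (0 : ℝ) 1, ∃ (U : Set (EuclideanSpace ℂ (Fin n))) (Φ : EuclideanSpace ℂ (Fin n) → M),
    IsOpen U ∧ hat n r ⊆ U ∧ MDifferentiableOn 𝓘(ℂ, EuclideanSpace ℂ (Fin n)) I Φ U ∧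
    InjOn Φ U ∧ Disjoint (Φ '' cap n r) K' ∧ K'' = K' \ Φ '' interior (hat n r)

/-- The nucleus: the intersection of all sets obtained from `K` by finite chains of spherical
cuts. -/
def nucleus (n : ℕ) [NeZero n] (K : Set M) : Set M :=
  ⋂₀ {K'' | Relation.ReflTransGen (IsCut I n) K K''}

/-- (Four times) the Levi form of `φ` at `p` in the preferred chart at `p`. -/
noncomputable def levi (φ : M → ℝ) (p : M) (v : E) : ℝ :=
  fderiv ℝ (fderiv ℝ (φ ∘ (extChartAt I p).symm)) (extChartAt I p p) v v +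
    fderiv ℝ (fderiv ℝ (φ ∘ (extChartAt I p).symm)) (extChartAt I p p) (Complex.I • v)
      (Complex.I • v)

/-- `φ` is smooth and plurisubharmonic on the open set `N`. -/
def IsSmoothPsh (φ : M → ℝ) (N : Set M) : Prop :=
  ∀ p ∈ N, ContDiffAt ℝ ∞ (φ ∘ (extChartAt I p).symm) (extChartAt I p p) ∧
    ∀ v : E, 0 ≤ levi I φ p v

/-- The core: the points `ζ` of `K` at which no function that is smooth and plurisubharmonic near
`K` is strictly plurisubharmonic. -/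
def core (K : Set M) : Set M :=
  {ζ | ζ ∈ K ∧ ¬ ∃ (N : Set M) (φ : M → ℝ), IsOpen N ∧ K ⊆ N ∧ IsSmoothPsh I φ N ∧
    ∀ v : E, v ≠ 0 → 0 < levi I φ ζ v}

end Pool.Agent.V1171.CN
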