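import Pool.Agent.V1171.CN.Defs

/-!
A continuity principle for the hat in `ℂ²`.
-/

set_option autoImplicit false

open scoped Manifold ContDiff Topology
open Set Metric Filter

namespace Pool.Agent.V1171.CN

theorem isClosed_hat (r : ℝ) : IsClosed (hat 2 r) :=
  (isClosed_le continuous_norm continuous_const).inter
    (isClosed_le continuous_const (Complex.continuous_re.comp (by fun_prop)))

theorem isCompact_hat (r : ℝ) : IsCompact (hat 2 r) := by
  apply Metric.isCompact_of_isClosed_isBounded (isClosed_hat r)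
  apply (isBounded_closedBall (x := (0 : EuclideanSpace ℂ (Fin 2))) (r := 1)).subset
  intro z hz
  rw [mem_closedBall_zero_iff]
  exact hz.1

theorem isCompact_cap (r : ℝ) : IsCompact (cap 2 r) := by
  apply (isCompact_hat r).of_isClosed_subset
  · exact (isClosed_eq continuous_norm continuous_const).inter
      (isClosed_le continuous_const (Complex.continuous_re.comp (by fun_prop)))
  · intro z hz
    exact ⟨hz.1.le, hz.2⟩

theorem convex_hat (r : ℝ) : Convex ℝ (hat 2 r) := by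
  have h1 : Convex ℝ {z : EuclideanSpace ℂ (Fin 2) | ‖z‖ ≤ 1} := by
    have h0 := convex_closedBall (0 : EuclideanSpace ℂ (Fin 2)) 1
    have e : {z : EuclideanSpace ℂ (Fin 2) | ‖z‖ ≤ 1} = closedBall 0 1 := by
      ext z
      rw [mem_closedBall_zero_iff, mem_ofPred_eq]
    rw [e]
    exact h0
  have h2 : Convex ℝ {z : EuclideanSpace ℂ (Fin 2) | r ≤ (z 0).re} := by
    intro x hx y hy a b ha hb hab
    have hx' : r ≤ (x 0).re := hx
    have hy' : r ≤ (y 0).re := hy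
    change r ≤ ((a • x + b • y) 0).re
    have e : ((a • x + b • y) 0).re = a * (x 0).re + b * (y 0).re := by
      simp
    rw [e]
    calc r = a * r + b * r := by rw [← add_mul, hab, one_mul]
      _ ≤ a * (x 0).re + b * (y 0).re :=
        add_le_add (mul_le_mul_of_nonneg_left hx' ha) (mul_le_mul_of_nonneg_left hy' hb)
  exact h1.inter h2

theorem norm_sq2 (z : EuclideanSpace ℂ (Fin 2)) : ‖z‖ ^ 2 = ‖z 0‖ ^ 2 + ‖z 1‖ ^ 2 := by
  rw [EuclideanSpace.norm_sq_eq, Fin.sum_univ_two]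

/-- If `h` is holomorphic off `Z` and blows up at `Z`, and `Z` does not meet the spherical cap, then
`Z` does not meet the hat. -/
theorem kont {r : ℝ} {Z : Set (EuclideanSpace ℂ (Fin 2))} {h : EuclideanSpace ℂ (Fin 2) → ℂ}
    (hZc : IsClosed (hat 2 r ∩ Z))
    (hd : ∀ z ∈ hat 2 r, z ∉ Z → DifferentiableAt ℂ h z)
    (hblow : ∀ z ∈ hat 2 r ∩ Z, ∀ M : ℝ, ∀ᶠ w in 𝓝 z, w ∉ Z → M < ‖h w‖)
    (hS : ∀ z ∈ cap 2 r, z ∉ Z) : ∀ z ∈ hat 2 r, z ∉ Z := by
  intro z₁ hz₁ hzZ₁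
  have hcomp : IsCompact (hat 2 r ∩ Z) :=
    (isCompact_hat r).of_isClosed_subset hZc inter_subset_left
  obtain ⟨p, hp, hmax⟩ := hcomp.exists_isMaxOn ⟨z₁, hz₁, hzZ₁⟩
    (f := fun z : EuclideanSpace ℂ (Fin 2) => (z 0).re)
    (Complex.continuous_re.comp (by fun_prop)).continuousOn
  have hp1 : ‖p‖ < 1 := by
    refine lt_of_le_of_ne hp.1.1 ?_
    intro h1
    exact hS p ⟨h1, hp.1.2⟩ hp.2
  have hp0 : ‖p 0‖ < 1 := by
    have := norm_sq2 p
    nlinarith [norm_nonneg (p 0), norm_nonneg (p 1), norm_nonneg p, sq_nonneg ‖p 1‖]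
  have hre1 : (p 0).re < 1 := lt_of_le_of_lt (Complex.re_le_norm _) hp0
  obtain ⟨M, hM⟩ : ∃ M : ℝ, ∀ z ∈ cap 2 r, ‖h z‖ ≤ M := by
    have hc : ContinuousOn h (cap 2 r) := fun z hz =>
      (hd z ⟨hz.1.le, hz.2⟩ (hS z hz)).continuousAt.continuousWithinAt
    exact (isCompact_cap r).exists_bound_of_continuousOn hc
  set q : ℝ → EuclideanSpace ℂ (Fin 2) := fun t => !₂[p 0 + t * (1 - p 0), p 1] with hq
  have hq0 : q 0 = p := by
    ext i
    fin_cases i <;> simp [hq]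
  have hqc : Continuous q := by
    rw [hq]
    fun_prop
  have e1 : ∀ᶠ t in 𝓝 (0 : ℝ), ‖q t‖ < 1 := by
    have : Tendsto (fun t => ‖q t‖) (𝓝 0) (𝓝 ‖q 0‖) := hqc.norm.continuousAt
    rw [hq0] at this
    exact this.eventually_lt_const hp1
  have e2 : ∀ᶠ t in 𝓝 (0 : ℝ), q t ∉ Z → M < ‖h (q t)‖ := by
    have : Tendsto q (𝓝 0) (𝓝 (q 0)) := hqc.continuousAt
    rw [hq0] at this
    exact this.eventually (hblow p hp M)
  have e3 : ∀ᶠ t in 𝓝[>] (0 : ℝ), ‖q t‖ < 1 ∧ (q t ∉ Z → M < ‖h (q t)‖) ∧ 0 < t := by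
    filter_upwards [e1.filter_mono nhdsWithin_le_nhds, e2.filter_mono nhdsWithin_le_nhds,
      self_mem_nhdsWithin] with t h1 h2 h3
    exact ⟨h1, h2, h3⟩
  obtain ⟨t, ht1, ht2, ht0⟩ := e3.exists
  set c : ℂ := p 0 + t * (1 - p 0) with hc
  have hcre : c.re = (p 0).re + t * (1 - (p 0).re) := by
    simp [hc]
  have hcgt : (p 0).re < c.re := by
    rw [hcre]
    have : 0 < t * (1 - (p 0).re) := mul_pos ht0 (by linarith)
    linarith
  have hcr : r ≤ c.re := hp.1.2.trans hcgt.le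
  have hqt0 : (q t) 0 = c := by simp [hq, hc]
  have hqt1 : (q t) 1 = p 1 := by simp [hq]
  have hnq : ‖c‖ ^ 2 + ‖p 1‖ ^ 2 < 1 := by
    have := norm_sq2 (q t)
    rw [hqt0, hqt1] at this
    rw [← this]
    nlinarith [norm_nonneg (q t)]
  set ρ : ℝ := Real.sqrt (1 - ‖c‖ ^ 2) with hρ
  have hρ2 : ρ ^ 2 = 1 - ‖c‖ ^ 2 := Real.sq_sqrt (by nlinarith [sq_nonneg ‖p 1‖])
  have hρ0 : 0 < ρ := Real.sqrt_pos.mpr (by nlinarith [sq_nonneg ‖p 1‖])
  have hmem : ∀ w : ℂ, ‖w‖ ≤ ρ → (!₂[c, w] : EuclideanSpace ℂ (Fin 2)) ∈ hat 2 r ∧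
      (!₂[c, w] : EuclideanSpace ℂ (Fin 2)) ∉ Z := by
    intro w hw
    have h1 : (!₂[c, w] : EuclideanSpace ℂ (Fin 2)) ∈ hat 2 r := by
      refine ⟨?_, by simpa using hcr⟩
      have h2 := norm_sq2 (!₂[c, w] : EuclideanSpace ℂ (Fin 2))
      have h3 : ‖(!₂[c, w] : EuclideanSpace ℂ (Fin 2))‖ ^ 2 = ‖c‖ ^ 2 + ‖w‖ ^ 2 := by
        rw [h2]; simp
      have h4 : ‖w‖ ^ 2 ≤ ρ ^ 2 := by gcongr
      nlinarith [norm_nonneg (!₂[c, w] : EuclideanSpace ℂ (Fin 2))]
    refine ⟨h1, fun hz => ?_⟩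
    have h5 := hmax ⟨h1, hz⟩
    have h6 : c.re ≤ (p 0).re := by simpa using h5
    linarith
  have hqnot : q t ∉ Z := by
    have := (hmem (p 1) (by
      rw [← Real.sqrt_sq (norm_nonneg (p 1)), hρ]
      exact Real.sqrt_le_sqrt (by linarith))).2
    exact this
  have hlow := ht2 hqnot
  have hdiff : ∀ w : ℂ, ‖w‖ ≤ ρ → DifferentiableAt ℂ
      (fun w : ℂ => h (!₂[c, w] : EuclideanSpace ℂ (Fin 2))) w := by
    intro w hw
    obtain ⟨h1, h2⟩ := hmem w hw
    have h3 : DifferentiableAt ℂ (fun w : ℂ => (!₂[c, w] : EuclideanSpace ℂ (Fin 2))) w := by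
      rw [differentiableAt_euclidean]
      intro i
      fin_cases i
      · simp
      · simp
    exact (hd _ h1 h2).comp w h3
  have hup : ‖h (q t)‖ ≤ M := by
    have hcl : closure (ball (0 : ℂ) ρ) = closedBall 0 ρ := closure_ball _ hρ0.ne'
    have h7 : DiffContOnCl ℂ (fun w : ℂ => h (!₂[c, w] : EuclideanSpace ℂ (Fin 2))) (ball 0 ρ) := by
      refine ⟨fun w hw => (hdiff w ?_).differentiableWithinAt, fun w hw =>
        (hdiff w ?_).continuousAt.continuousWithinAt⟩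
      · rw [mem_ball_zero_iff] at hw
        exact hw.le
      · rw [hcl, mem_closedBall_zero_iff] at hw
        exact hw
    have h8 := Complex.norm_le_of_forall_mem_frontier_norm_le (U := ball (0 : ℂ) ρ)
      isBounded_ball h7 (C := M) (fun w hw => ?_) (z := p 1) ?_
    · exact h8
    · rw [frontier_ball _ hρ0.ne', mem_sphere_zero_iff_norm] at hw
      apply hM
      obtain ⟨h1, -⟩ := hmem w hw.le
      refine ⟨?_, h1.2⟩
      have h3 : ‖(!₂[c, w] : EuclideanSpace ℂ (Fin 2))‖ ^ 2 = 1 := by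
        rw [norm_sq2]
        simp only [Matrix.cons_val_zero, Matrix.cons_val_one]
        rw [hw, hρ2]
        ring
      nlinarith [norm_nonneg (!₂[c, w] : EuclideanSpace ℂ (Fin 2))]
    · rw [hcl, mem_closedBall_zero_iff, ← Real.sqrt_sq (norm_nonneg (p 1)), hρ]
      exact Real.sqrt_le_sqrt (by linarith)
  linarith

end Pool.Agent.V1171.CN
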