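import Pool.Agent.V1171.CN.Phi

/-!
The core of `K₀` does not contain the point `(0, 0)` of its nucleus.
-/

set_option autoImplicit false

open scoped Manifold ContDiff Topology RealInnerProductSpace
open Set Metric Filter

namespace Pool.Agent.V1171.CN

open Pool.Agent.H194R3.Cartan
open Pool.Agent.H194R3.Cartan.P1 (coe inf inversion chartZero chartInf)

/-- the plurisubharmonic function -/
noncomputable def phi (p : ℂ × P1) : ℝ :=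
  ‖p.1‖ ^ 2 + if ‖p.1‖ ^ 2 ≤ 1 / 3 then
    m0 (-(1 / 2) * ‖p.1‖ ^ 2 + ‖chartZero p.2‖ ^ 2 + 1 / 8) else 0

/-- the neighbourhood of `K₀` -/
def Nbd : Set (ℂ × P1) :=
  {p | 1 / 3 < ‖p.1‖ ^ 2} ∪ Prod.snd ⁻¹' (coe '' {y : ℂ | ‖y‖ ^ 2 < 1 / 24})

theorem isOpen_Nbd : IsOpen Nbd := by
  apply IsOpen.union
  · exact isOpen_lt continuous_const ((continuous_norm.comp continuous_fst).pow 2)
  · apply IsOpen.preimage continuous_snd
    apply P1.isOpenEmbedding_coe.isOpenMap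
    exact isOpen_lt (continuous_norm.pow 2) continuous_const

theorem K0_subset_Nbd : K0 ⊆ Nbd := by
  rintro ⟨a, x⟩ (⟨-, h⟩ | h)
  · right
    refine ⟨0, ?_, h.symm⟩
    simp
  · left
    change 1 / 3 < ‖a‖ ^ 2
    rw [show ‖a‖ = 1 from h]
    norm_num

theorem extChartAt_coe_symm (b y : ℂ) (q : ℂ × ℂ) :
    (extChartAt IM ((b, coe y) : ℂ × P1)).symm q = (q.1, coe q.2) := by
  rw [extChartAt_prod]
  have h1 : chartAt ℂ b = OpenPartialHomeomorph.refl ℂ := chartAt_self_eq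
  have h2 : chartAt ℂ (coe y) = chartZero := if_neg (P1.coe_ne_inf y)
  simp [h1, h2, extChartAt, PartialEquiv.prod, P1.chartZero_symm]

theorem extChartAt_coe_apply (b y : ℂ) :
    (extChartAt IM ((b, coe y) : ℂ × P1)) (b, coe y) = (b, y) := by
  rw [extChartAt_prod]
  have h1 : chartAt ℂ b = OpenPartialHomeomorph.refl ℂ := chartAt_self_eq
  have h2 : chartAt ℂ (coe y) = chartZero := if_neg (P1.coe_ne_inf y)
  simp [h1, h2, extChartAt, PartialEquiv.prod, P1.chartZero_coe]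

theorem extChartAt_symm_fst (p : ℂ × P1) (q : ℂ × ℂ) :
    ((extChartAt IM p).symm q).1 = q.1 := by
  obtain ⟨b, x⟩ := p
  rw [extChartAt_prod]
  have h1 : chartAt ℂ b = OpenPartialHomeomorph.refl ℂ := chartAt_self_eq
  simp [h1, PartialEquiv.prod]

theorem extChartAt_fst (p : ℂ × P1) :
    ((extChartAt IM p) p).1 = p.1 := by
  obtain ⟨b, x⟩ := p
  rw [extChartAt_prod]
  have h1 : chartAt ℂ b = OpenPartialHomeomorph.refl ℂ := chartAt_self_eq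
  simp [h1, PartialEquiv.prod]

/-- the function `‖b‖²` in coordinates -/
noncomputable def G₁ (q : ℂ × ℂ) : ℝ := ‖q.1‖ ^ 2

theorem contDiff_G₁ : ContDiff ℝ ∞ G₁ := (contDiff_norm_sq ℝ).comp contDiff_fst

theorem fderiv2_G₁ (q v : ℂ × ℂ) : fderiv ℝ (fderiv ℝ G₁) q v v = 2 * ‖v.1‖ ^ 2 := by
  apply fderiv2_eq (contDiff_G₁.contDiffAt.of_le (by norm_cast))
    (g' := fun t => (2 * ⟪q.1, v.1⟫ + 2 * t * ‖v.1‖ ^ 2))
  · intro t
    exact hasDerivAt_normSq q.1 v.1 t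
  · have := (((hasDerivAt_id (0 : ℝ)).const_mul 2).mul_const (‖v.1‖ ^ 2)).const_add
        (2 * ⟪q.1, v.1⟫)
    simpa using this

theorem phi_far {p : ℂ × P1} (hp : 1 / 3 < ‖p.1‖ ^ 2) :
    phi ∘ (extChartAt IM p).symm =ᶠ[𝓝 (extChartAt IM p p)] G₁ := by
  have h1 : ∀ᶠ q : ℂ × ℂ in 𝓝 (extChartAt IM p p), 1 / 3 < ‖q.1‖ ^ 2 := by
    have ho : IsOpen {q : ℂ × ℂ | 1 / 3 < ‖q.1‖ ^ 2} :=
      isOpen_lt continuous_const ((continuous_norm.comp continuous_fst).pow 2)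
    apply ho.mem_nhds
    change 1 / 3 < ‖((extChartAt IM p) p).1‖ ^ 2
    rw [extChartAt_fst]
    exact hp
  filter_upwards [h1] with q hq
  rw [Function.comp, phi, extChartAt_symm_fst, if_neg (not_le.mpr hq), add_zero, G₁]

theorem phi_near {b y : ℂ} (hy : ‖y‖ ^ 2 < 1 / 24) :
    phi ∘ (extChartAt IM ((b, coe y) : ℂ × P1)).symm =ᶠ[𝓝 (b, y)] G := by
  have h1 : ∀ᶠ q : ℂ × ℂ in 𝓝 (b, y), ‖q.2‖ ^ 2 < 1 / 24 := by
    have ho : IsOpen {q : ℂ × ℂ | ‖q.2‖ ^ 2 < 1 / 24} :=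
      isOpen_lt ((continuous_norm.comp continuous_snd).pow 2) continuous_const
    exact ho.mem_nhds hy
  filter_upwards [h1] with q hq
  rw [Function.comp, phi, extChartAt_coe_symm, G]
  simp only [P1.chartZero_coe]
  split_ifs with h
  · rfl
  · rw [m0_eq_zero]
    push Not at h
    linarith

theorem levi_congr {φ : ℂ × P1 → ℝ} {p : ℂ × P1} {F : ℂ × ℂ → ℝ}
    (h : φ ∘ (extChartAt IM p).symm =ᶠ[𝓝 (extChartAt IM p p)] F) (v : ℂ × ℂ) :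
    levi IM φ p v = fderiv ℝ (fderiv ℝ F) (extChartAt IM p p) v v +
      fderiv ℝ (fderiv ℝ F) (extChartAt IM p p) (Complex.I • v) (Complex.I • v) := by
  rw [levi, h.fderiv.fderiv_eq]

theorem levi_far {p : ℂ × P1} (hp : 1 / 3 < ‖p.1‖ ^ 2) (v : ℂ × ℂ) : 0 ≤ levi IM phi p v := by
  rw [levi_congr (phi_far hp), fderiv2_G₁, fderiv2_G₁]
  positivity

theorem levi_near {b y : ℂ} (hy : ‖y‖ ^ 2 < 1 / 24) (v : ℂ × ℂ) :
    2 * ‖v.1‖ ^ 2 + 4 * m1 (-(1 / 2) * ‖b‖ ^ 2 + ‖y‖ ^ 2 + 1 / 8) * ‖v.2‖ ^ 2 ≤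
      levi IM phi (b, coe y) v := by
  have h0 := phi_near (b := b) hy
  rw [levi_congr (F := G) (by rw [extChartAt_coe_apply]; exact h0), extChartAt_coe_apply,
    fderiv2_G, fderiv2_G]
  have e1 : ‖(Complex.I • v).1‖ = ‖v.1‖ := by
    rw [Prod.smul_fst, norm_smul, Complex.norm_I, one_mul]
  have e2 : ‖(Complex.I • v).2‖ = ‖v.2‖ := by
    rw [Prod.smul_snd, norm_smul, Complex.norm_I, one_mul]
  rw [e1, e2]
  simp only
  set s := -(1 / 2) * ‖b‖ ^ 2 + ‖y‖ ^ 2 + 1 / 8 with hs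
  have hs2 : s ≤ 1 / 2 := by nlinarith [sq_nonneg ‖b‖]
  have hm2 := m2_nonneg hs2
  have hm1 := m1_nonneg s
  have hm1' := m1_le s
  have t1 : 0 ≤ m2 s * (-(⟪b, v.1⟫) + 2 * ⟪y, v.2⟫) ^ 2 := mul_nonneg hm2 (sq_nonneg _)
  have t2 : 0 ≤ m2 s * (-(⟪b, (Complex.I • v).1⟫) + 2 * ⟪y, (Complex.I • v).2⟫) ^ 2 :=
    mul_nonneg hm2 (sq_nonneg _)
  have t3 : m1 s * ‖v.1‖ ^ 2 ≤ 1 * ‖v.1‖ ^ 2 :=
    mul_le_mul_of_nonneg_right hm1' (sq_nonneg _)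
  nlinarith

theorem smoothPsh_phi : IsSmoothPsh IM phi Nbd := by
  rintro p (hp | hp)
  · refine ⟨?_, levi_far hp⟩
    exact contDiff_G₁.contDiffAt.congr_of_eventuallyEq (phi_far hp)
  · obtain ⟨b, x⟩ := p
    obtain ⟨y, hy, rfl⟩ : ∃ y : ℂ, ‖y‖ ^ 2 < 1 / 24 ∧ coe y = x := hp
    constructor
    · have := contDiff_G.contDiffAt.congr_of_eventuallyEq (phi_near (b := b) hy)
      rw [extChartAt_coe_apply]
      exact this
    · intro v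
      refine le_trans ?_ (levi_near hy v)
      have := m1_nonneg (-(1 / 2) * ‖b‖ ^ 2 + ‖y‖ ^ 2 + 1 / 8)
      positivity

theorem strict_phi (v : ℂ × ℂ) (hv : v ≠ 0) : 0 < levi IM phi (0, coe 0) v := by
  refine lt_of_lt_of_le ?_ (levi_near (by simp) v)
  have hm : 0 < m1 (-(1 / 2) * ‖(0 : ℂ)‖ ^ 2 + ‖(0 : ℂ)‖ ^ 2 + 1 / 8) := by
    apply m1_pos
    simp
  by_cases h1 : v.1 = 0
  · have h2 : v.2 ≠ 0 := fun h2 => hv (Prod.ext h1 h2)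
    have : 0 < ‖v.2‖ := norm_pos_iff.mpr h2
    positivity
  · have : 0 < ‖v.1‖ := norm_pos_iff.mpr h1
    have h3 : 0 < 2 * ‖v.1‖ ^ 2 := by positivity
    have h4 : 0 ≤ 4 * m1 (-(1 / 2) * ‖(0 : ℂ)‖ ^ 2 + ‖(0 : ℂ)‖ ^ 2 + 1 / 8) * ‖v.2‖ ^ 2 := by
      positivity
    linarith

theorem zero_mem_K0 : ((0, coe 0) : ℂ × P1) ∈ K0 := Or.inl ⟨by simp, rfl⟩

theorem main : ∃ K : Set (ℂ × P1), IsCompact K ∧ ∃ ζ ∈ nucleus IM 2 K, ζ ∉ core IM K := by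
  refine ⟨K0, isCompact_K0, (0, coe 0), ?_, ?_⟩
  · rw [nucleus_K0]
    exact zero_mem_K0
  · rintro ⟨-, h⟩
    exact h ⟨Nbd, phi, isOpen_Nbd, K0_subset_Nbd, smoothPsh_phi, strict_phi⟩

end Pool.Agent.V1171.CN
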