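import Pool.Agent.V1171.CN.Kont
import Pool.Agent.H194R3.Cartan.P1

/-!
The compact set `K₀ ⊆ ℂ × ℙ¹`: the closed disc `{‖b‖ ≤ 1} × {0}` together with the compact curves
`{b} × ℙ¹`, `‖b‖ = 1`.  No spherical cut removes any point of it.
-/

set_option autoImplicit false

open scoped Manifold ContDiff Topology
open Set Metric Filter

namespace Pool.Agent.V1171.CN

open Pool.Agent.H194R3.Cartan
open Pool.Agent.H194R3.Cartan.P1 (coe inf inversion chartZero chartInf)

/-- The model of `ℂ × ℙ¹`. -/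
noncomputable abbrev IM : ModelWithCorners ℂ (ℂ × ℂ) (ModelProd ℂ ℂ) := 𝓘(ℂ, ℂ).prod 𝓘(ℂ, ℂ)

/-- The compact set. -/
def K0 : Set (ℂ × P1) := {p | (‖p.1‖ ≤ 1 ∧ p.2 = coe 0) ∨ ‖p.1‖ = 1}

theorem isCompact_K0 : IsCompact K0 := by
  have h1 : IsCompact (closedBall (0 : ℂ) 1 ×ˢ (univ : Set P1)) :=
    (isCompact_closedBall _ _).prod isCompact_univ
  apply h1.of_isClosed_subset
  · apply IsClosed.union
    · apply IsClosed.inter
      · exact isClosed_le (continuous_norm.comp continuous_fst) continuous_const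
      · exact isClosed_eq continuous_snd continuous_const
    · exact isClosed_eq (continuous_norm.comp continuous_fst) continuous_const
  · rintro ⟨a, b⟩ (h | h)
    · exact ⟨mem_closedBall_zero_iff.mpr h.1, mem_univ _⟩
    · exact ⟨mem_closedBall_zero_iff.mpr (le_of_eq h), mem_univ _⟩

theorem blow {X : Type*} [TopologicalSpace X] {g : X → ℂ} {x : X} (hg : ContinuousAt g x)
    (h0 : g x = 0) (M : ℝ) : ∀ᶠ w in 𝓝 x, g w ≠ 0 → M < ‖(g w)⁻¹‖ := by
  have h1 : Tendsto (fun w => ‖g w‖) (𝓝 x) (𝓝 0) := by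
    have := hg.norm
    rw [ContinuousAt, h0, norm_zero] at this
    exact this
  have hM : (0 : ℝ) < (|M| + 1)⁻¹ := by positivity
  filter_upwards [h1.eventually_lt_const hM] with w hw hw0
  have h2 : 0 < ‖g w‖ := norm_pos_iff.mpr hw0
  rw [norm_inv]
  have h3 : |M| + 1 < ‖g w‖⁻¹ := by
    rw [← inv_inv (|M| + 1)]
    exact inv_strictAnti₀ h2 hw
  have := le_abs_self M
  linarith

theorem no_cut {r : ℝ} {U : Set (EuclideanSpace ℂ (Fin 2))}
    {Φ : EuclideanSpace ℂ (Fin 2) → ℂ × P1} (hU : IsOpen U) (hh : hat 2 r ⊆ U)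
    (hΦ : MDifferentiableOn 𝓘(ℂ, EuclideanSpace ℂ (Fin 2)) IM Φ U)
    (hd : Disjoint (Φ '' cap 2 r) K0) : Disjoint (Φ '' hat 2 r) K0 := by
  have hM : IsManifold 𝓘(ℂ, ℂ) 1 P1 := IsManifold.of_le (n := ω) le_top
  have hΦat : ∀ z ∈ hat 2 r, MDifferentiableAt 𝓘(ℂ, EuclideanSpace ℂ (Fin 2)) IM Φ z :=
    fun z hz => (hΦ z (hh hz)).mdifferentiableAt (hU.mem_nhds (hh hz))
  have hcont : ContinuousOn Φ (hat 2 r) := fun z hz =>
    (hΦat z hz).continuousAt.continuousWithinAt
  have hf1 : ∀ z ∈ hat 2 r, DifferentiableAt ℂ (fun z => (Φ z).1) z := by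
    intro z hz
    rw [← mdifferentiableAt_iff_differentiableAt]
    exact (hΦat z hz).fst
  have hf2 : ∀ z ∈ hat 2 r,
      MDifferentiableAt 𝓘(ℂ, EuclideanSpace ℂ (Fin 2)) 𝓘(ℂ, ℂ) (fun z => (Φ z).2) z :=
    fun z hz => (hΦat z hz).snd
  have hcap : ∀ z ∈ cap 2 r, Φ z ∉ K0 := fun z hz hK =>
    Set.disjoint_left.mp hd (mem_image_of_mem _ hz) hK
  have step1 : ∀ b : ℂ, ‖b‖ = 1 → ∀ z ∈ hat 2 r, (Φ z).1 ≠ b := by
    intro b hb
    apply kont (Z := {z | (Φ z).1 = b}) (h := fun z => ((Φ z).1 - b)⁻¹)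
    · exact (continuous_fst.comp_continuousOn hcont).preimage_isClosed_of_isClosed
        (isClosed_hat r) (isClosed_singleton (x := b))
    · intro z hz hzZ
      have : (Φ z).1 - b ≠ 0 := sub_ne_zero.mpr hzZ
      exact ((hf1 z hz).sub_const b).inv this
    · intro z hz M
      have h1 : ContinuousAt (fun w => (Φ w).1 - b) z := ((hf1 z hz.1).sub_const b).continuousAt
      have h2 : (Φ z).1 - b = 0 := sub_eq_zero.mpr hz.2
      filter_upwards [blow h1 h2 M] with w hw hwZ
      exact hw (sub_ne_zero.mpr hwZ)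
    · intro z hz hzZ
      apply hcap z hz
      right
      rw [show (Φ z).1 = b from hzZ]
      exact hb
  have step2 : (∀ z ∈ cap 2 r, (Φ z).2 ≠ coe 0) → ∀ z ∈ hat 2 r, (Φ z).2 ≠ coe 0 := by
    intro hS
    apply kont (Z := {z | (Φ z).2 = coe 0}) (h := fun z => chartInf (Φ z).2)
    · exact (continuous_snd.comp_continuousOn hcont).preimage_isClosed_of_isClosed
        (isClosed_hat r) (isClosed_singleton (x := coe 0))
    · intro z hz hzZ
      have hsrc : (Φ z).2 ∈ chartInf.source := by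
        rw [P1.mem_chartInf_source]
        rcases P1.cases (Φ z).2 with h | ⟨y, hy⟩
        · rw [h]
          exact ⟨0, by simp⟩
        · have hy0 : y ≠ 0 := by
            rintro rfl
            exact hzZ hy
          rw [hy, P1.inversion_of_ne hy0]
          exact ⟨_, rfl⟩
      have h1 : MDifferentiableAt 𝓘(ℂ, ℂ) 𝓘(ℂ, ℂ) chartInf (Φ z).2 :=
        mdifferentiableAt_atlas (Or.inr rfl) hsrc
      rw [← mdifferentiableAt_iff_differentiableAt]
      exact h1.comp z (hf2 z hz)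
    · intro z hz M
      have hz0 : (Φ z).2 = coe 0 := hz.2
      have hc2 : ContinuousAt (fun w => (Φ w).2) z := (hf2 z hz.1).continuousAt
      have hsrc : (Φ z).2 ∈ chartZero.source := by
        rw [P1.chartZero_source, hz0]
        exact ⟨0, rfl⟩
      have h1 : ContinuousAt (fun w => chartZero (Φ w).2) z :=
        (chartZero.continuousAt hsrc).comp (f := fun w => (Φ w).2) hc2
      have h2 : chartZero (Φ z).2 = 0 := by rw [hz0, P1.chartZero_coe]
      have h3 : ∀ᶠ w in 𝓝 z, (Φ w).2 ∈ range coe := by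
        apply hc2.eventually_mem
        rw [hz0]
        exact P1.isOpenEmbedding_coe.isOpen_range.mem_nhds ⟨0, rfl⟩
      filter_upwards [blow h1 h2 M, h3] with w hw hwr hwZ
      obtain ⟨y, hy⟩ := hwr
      have hy0 : y ≠ 0 := by
        rintro rfl
        exact hwZ hy.symm
      rw [← hy, P1.chartZero_coe] at hw
      rw [← hy, P1.chartInf_apply, P1.inversion_of_ne hy0, P1.chartZero_coe]
      exact hw hy0
    · exact hS
  rw [Set.disjoint_left]
  rintro _ ⟨z₀, hz₀, rfl⟩ hK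
  rcases hK with ⟨h1, h2⟩ | h1
  · have hlt : ∀ z ∈ hat 2 r, ‖(Φ z).1‖ < 1 := by
      intro z hz
      by_contra hge
      push Not at hge
      have hivt := (convex_hat r).isPreconnected.intermediate_value hz₀ hz
        (f := fun z => ‖(Φ z).1‖)
        ((continuous_norm.comp continuous_fst).comp_continuousOn hcont)
      obtain ⟨z₂, hz₂, hz₂'⟩ := hivt ⟨h1, hge⟩
      exact step1 _ hz₂' z₂ hz₂ rfl
    refine step2 (fun z hz h0 => hcap z hz (Or.inl ⟨(hlt z ⟨hz.1.le, hz.2⟩).le, h0⟩)) z₀ hz₀ h2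
  · exact step1 _ h1 z₀ hz₀ rfl

theorem isCut_K0 {K'' : Set (ℂ × P1)} (h : IsCut IM 2 K0 K'') : K'' = K0 := by
  obtain ⟨r, hr, U, Φ, hU, hh, hΦ, -, hd, rfl⟩ := h
  have h1 := no_cut hU hh hΦ hd
  rw [sdiff_eq_left]
  exact (h1.mono_left (image_mono interior_subset)).symm

theorem nucleus_K0 : nucleus IM 2 K0 = K0 := by
  have key : ∀ K'' : Set (ℂ × P1), Relation.ReflTransGen (IsCut IM 2) K0 K'' → K'' = K0 := by
    intro K'' h
    induction h with
    | refl => rfl
    | tail _ h2 ih =>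
      subst ih
      exact isCut_K0 h2
  apply Subset.antisymm
  · exact sInter_subset_of_mem Relation.ReflTransGen.refl
  · apply subset_sInter
    intro K'' h
    rw [key K'' h]

end Pool.Agent.V1171.CN
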