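import Pool.Agent.V1171.CN.NoCut

/-!
The plurisubharmonic function on a neighbourhood of `K₀`.
-/

set_option autoImplicit false

open scoped Manifold ContDiff Topology RealInnerProductSpace
open Set Metric Filter

namespace Pool.Agent.V1171.CN

open Pool.Agent.H194R3.Cartan
open Pool.Agent.H194R3.Cartan.P1 (coe inf inversion chartZero chartInf)

theorem fderiv2_eq {E : Type*} [NormedAddCommGroup E] [NormedSpace ℝ E] {G : E → ℝ} {x v : E}
    (hG : ContDiffAt ℝ 2 G x) {g' : ℝ → ℝ} {D : ℝ}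
    (h1 : ∀ t : ℝ, HasDerivAt (fun t : ℝ => G (x + t • v)) (g' t) t)
    (h2 : HasDerivAt g' D 0) : fderiv ℝ (fderiv ℝ G) x v v = D := by
  have hx : Tendsto (fun t : ℝ => x + t • v) (𝓝 0) (𝓝 x) := by
    have : Continuous (fun t : ℝ => x + t • v) := by fun_prop
    simpa using this.tendsto 0
  have hline : ∀ t : ℝ, HasDerivAt (fun t : ℝ => x + t • v) v t := by
    intro t
    simpa using ((hasDerivAt_id t).smul_const v).const_add x
  have hdiff : ∀ᶠ y in 𝓝 x, DifferentiableAt ℝ G y := by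
    have := hG.eventually (by simp)
    filter_upwards [this] with y hy
    exact hy.differentiableAt (by norm_num)
  have e : g' =ᶠ[𝓝 0] fun t => fderiv ℝ G (x + t • v) v := by
    filter_upwards [hx.eventually hdiff] with t hy
    exact (h1 t).unique (hy.hasFDerivAt.comp_hasDerivAt t (hline t))
  have hG' : DifferentiableAt ℝ (fderiv ℝ G) x :=
    (hG.fderiv_right (m := 1) (by norm_num)).differentiableAt (by norm_num)
  have h3 : HasDerivAt (fun t : ℝ => fderiv ℝ G (x + t • v) v)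
      (fderiv ℝ (fderiv ℝ G) x v v) 0 := by
    have h4 : HasFDerivAt (fderiv ℝ G) (fderiv ℝ (fderiv ℝ G) x) (x + (0 : ℝ) • v) := by
      simpa using hG'.hasFDerivAt
    have h5 := h4.comp_hasDerivAt (0 : ℝ) (hline 0)
    have h6 := h5.clm_apply (hasDerivAt_const (0 : ℝ) v)
    simpa using h6
  exact h3.unique (h2.congr_of_eventuallyEq e.symm)

/-- the smooth function `x ↦ exp(-1/x)` (`x > 0`), `0` (`x ≤ 0`) -/
noncomputable def m0 (x : ℝ) : ℝ := expNegInvGlue x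
/-- its derivative -/
noncomputable def m1 (x : ℝ) : ℝ := (x⁻¹) ^ 2 * expNegInvGlue x
/-- its second derivative -/
noncomputable def m2 (x : ℝ) : ℝ := ((x⁻¹) ^ 4 - 2 * (x⁻¹) ^ 3) * expNegInvGlue x

theorem hasDerivAt_m0 (x : ℝ) : HasDerivAt m0 (m1 x) x := by
  have h := expNegInvGlue.hasDerivAt_polynomial_eval_inv_mul (1 : Polynomial ℝ) x
  change HasDerivAt (fun x => expNegInvGlue x) (m1 x) x
  simpa [m1] using h

theorem hasDerivAt_m1 (x : ℝ) : HasDerivAt m1 (m2 x) x := by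
  have h := expNegInvGlue.hasDerivAt_polynomial_eval_inv_mul (Polynomial.X ^ 2 : Polynomial ℝ) x
  have e : (Polynomial.eval x⁻¹ ((Polynomial.X : Polynomial ℝ) ^ 2 *
      (Polynomial.X ^ 2 - Polynomial.derivative (Polynomial.X ^ 2 : Polynomial ℝ)))) *
        expNegInvGlue x = m2 x := by
    rw [m2]
    simp
    left
    ring
  rw [e] at h
  change HasDerivAt (fun x => (x⁻¹) ^ 2 * expNegInvGlue x) (m2 x) x
  simpa using h

theorem m0_eq_zero {x : ℝ} (hx : x ≤ 0) : m0 x = 0 := expNegInvGlue.zero_of_nonpos hx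

theorem m1_nonneg (x : ℝ) : 0 ≤ m1 x := mul_nonneg (sq_nonneg _) (expNegInvGlue.nonneg x)

theorem m1_pos {x : ℝ} (hx : 0 < x) : 0 < m1 x :=
  mul_pos (by positivity) (expNegInvGlue.pos_of_pos hx)

theorem m1_le (x : ℝ) : m1 x ≤ 1 := by
  rcases le_or_gt x 0 with hx | hx
  · rw [m1, expNegInvGlue.zero_of_nonpos hx, mul_zero]
    exact zero_le_one
  · rw [m1, expNegInvGlue, if_neg (not_le.mpr hx)]
    have hu : 0 < x⁻¹ := inv_pos.mpr hx
    set u := x⁻¹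
    have h1 : u ≤ Real.exp (u / 2) := by
      have := Real.quadratic_le_exp_of_nonneg (x := u / 2) (by positivity)
      nlinarith [sq_nonneg (u / 2 - 1)]
    have h2 : u ^ 2 ≤ Real.exp u := by
      have h3 : Real.exp u = Real.exp (u / 2) ^ 2 := by
        rw [← Real.exp_nat_mul]
        congr 1
        push_cast
        ring
      rw [h3]
      gcongr
    rw [Real.exp_neg]
    rw [← div_eq_mul_inv, div_le_one (Real.exp_pos _)]
    exact h2

theorem m2_nonneg {x : ℝ} (hx : x ≤ 1 / 2) : 0 ≤ m2 x := by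
  rcases le_or_gt x 0 with h0 | h0
  · rw [m2, expNegInvGlue.zero_of_nonpos h0, mul_zero]
  · apply mul_nonneg _ (expNegInvGlue.nonneg x)
    have hu : 0 < x⁻¹ := inv_pos.mpr h0
    have h2 : 2 ≤ x⁻¹ := by
      rw [le_inv_comm₀ (by norm_num) h0]
      linarith
    have : (x⁻¹) ^ 4 - 2 * (x⁻¹) ^ 3 = (x⁻¹) ^ 3 * (x⁻¹ - 2) := by ring
    rw [this]
    exact mul_nonneg (by positivity) (by linarith)

/-- the function in the coordinates of `ℂ × ℂ` -/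
noncomputable def G (q : ℂ × ℂ) : ℝ :=
  ‖q.1‖ ^ 2 + m0 (-(1 / 2) * ‖q.1‖ ^ 2 + ‖q.2‖ ^ 2 + 1 / 8)

theorem contDiff_G : ContDiff ℝ ∞ G := by
  have h1 : ContDiff ℝ ∞ (fun q : ℂ × ℂ => ‖q.1‖ ^ 2) := (contDiff_norm_sq ℝ).comp contDiff_fst
  have h2 : ContDiff ℝ ∞ (fun q : ℂ × ℂ => ‖q.2‖ ^ 2) := (contDiff_norm_sq ℝ).comp contDiff_snd
  have h3 : ContDiff ℝ ∞ m0 := expNegInvGlue.contDiff
  exact h1.add (h3.comp (((contDiff_const.mul h1).add h2).add contDiff_const))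

theorem hasDerivAt_normSq (q v : ℂ) (t : ℝ) :
    HasDerivAt (fun t : ℝ => ‖q + t • v‖ ^ 2) (2 * ⟪q, v⟫ + 2 * t * ‖v‖ ^ 2) t := by
  have e : (fun t : ℝ => ‖q + t • v‖ ^ 2) =
      fun t : ℝ => ‖q‖ ^ 2 + 2 * t * ⟪q, v⟫ + t ^ 2 * ‖v‖ ^ 2 := by
    funext t
    rw [norm_add_sq_real, norm_smul, inner_smul_right, mul_pow, Real.norm_eq_abs, sq_abs]
    ring
  rw [e]
  have h1 := (((hasDerivAt_id t).const_mul 2).mul_const ⟪q, v⟫).const_add (‖q‖ ^ 2)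
  have h2 := ((hasDerivAt_id t).pow 2).mul_const (‖v‖ ^ 2)
  have h3 := h1.add h2
  refine (h3.congr_deriv ?_).congr_of_eventuallyEq (Eventually.of_forall fun t => ?_)
  · simp
  · simp

theorem fderiv2_G (q v : ℂ × ℂ) : fderiv ℝ (fderiv ℝ G) q v v =
    2 * ‖v.1‖ ^ 2 + (m2 (-(1 / 2) * ‖q.1‖ ^ 2 + ‖q.2‖ ^ 2 + 1 / 8) *
      (-(⟪q.1, v.1⟫) + 2 * ⟪q.2, v.2⟫) ^ 2 +
      m1 (-(1 / 2) * ‖q.1‖ ^ 2 + ‖q.2‖ ^ 2 + 1 / 8) * (-(‖v.1‖ ^ 2) + 2 * ‖v.2‖ ^ 2)) := by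
  set s : ℝ → ℝ := fun t => -(1 / 2) * ‖q.1 + t • v.1‖ ^ 2 + ‖q.2 + t • v.2‖ ^ 2 + 1 / 8 with hs
  set s' : ℝ → ℝ := fun t => -(1 / 2) * (2 * ⟪q.1, v.1⟫ + 2 * t * ‖v.1‖ ^ 2) +
    (2 * ⟪q.2, v.2⟫ + 2 * t * ‖v.2‖ ^ 2) with hs'
  have hsd : ∀ t, HasDerivAt s (s' t) t := fun t =>
    (((hasDerivAt_normSq q.1 v.1 t).const_mul (-(1 / 2))).add
      (hasDerivAt_normSq q.2 v.2 t)).add_const (1 / 8)
  have hsd' : HasDerivAt s' (-(‖v.1‖ ^ 2) + 2 * ‖v.2‖ ^ 2) 0 := by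
    have h1 : ∀ c d : ℝ, HasDerivAt (fun t : ℝ => 2 * c + 2 * t * d) (2 * d) 0 := by
      intro c d
      have := (((hasDerivAt_id (0 : ℝ)).const_mul 2).mul_const d).const_add (2 * c)
      simpa using this
    have h2 := ((h1 ⟪q.1, v.1⟫ (‖v.1‖ ^ 2)).const_mul (-(1 / 2))).add
      (h1 ⟪q.2, v.2⟫ (‖v.2‖ ^ 2))
    refine h2.congr_deriv ?_
    ring
  apply fderiv2_eq (contDiff_G.contDiffAt.of_le (by norm_cast))
    (g' := fun t => (2 * ⟪q.1, v.1⟫ + 2 * t * ‖v.1‖ ^ 2) + m1 (s t) * s' t)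
  · intro t
    have h1 := (hasDerivAt_normSq q.1 v.1 t).add ((hasDerivAt_m0 (s t)).comp t (hsd t))
    exact h1
  · have h1 : HasDerivAt (fun t : ℝ => 2 * ⟪q.1, v.1⟫ + 2 * t * ‖v.1‖ ^ 2) (2 * ‖v.1‖ ^ 2) 0 := by
      have := (((hasDerivAt_id (0 : ℝ)).const_mul 2).mul_const (‖v.1‖ ^ 2)).const_add
        (2 * ⟪q.1, v.1⟫)
      simpa using this
    have h2 := h1.add (((hasDerivAt_m1 (s 0)).comp 0 (hsd 0)).mul hsd')
    refine h2.congr_deriv ?_
    simp only [hs, hs', Function.comp, zero_smul, add_zero, mul_zero, zero_mul]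
    ring

end Pool.Agent.V1171.CN
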